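import Pool.Agent.Q61.CD.Oeb

/-! Job Even of the project CD of helper240. -/

set_option autoImplicit false

open Polynomial Filter Topology Finset MeasureTheory

namespace Pool.Agent.Q61.CD

open Pool.Agent.Q240.CD

/-- JOB Even. -/
theorem even (hKb : S_Kb) (hgap : S_Gap) (hoeb : S_Oeb) : S_Even := by
  intro ι l g μ N M u hF hW q0 hq0 T ε hε
  rcases l.eq_or_neBot with rfl | hne
  · simp
  obtain ⟨r1, c0, hr1, hrg, hc0, hu⟩ := hW.low
  have hpm := hF.pm
  obtain ⟨i0, hi0, hi0'⟩ := (hpm.and hq0).exists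
  have hg0 := hi0.pos
  have hCg := Cg_pos hi0.pos
  obtain ⟨c, C1, hc, hC, hcC⟩ := hoeb l g μ N M u hF hW q0 hq0
  obtain ⟨K, hKdef⟩ : ∃ K, K = 1 / c * Cg g := ⟨_, rfl⟩
  have hK : 0 ≤ K := by rw [hKdef]; positivity
  obtain ⟨R, hR1, hR⟩ := tail_ge hW (1 / (4 * (K + 1))) (by positivity) 1
  obtain ⟨B, hB⟩ := hW.bdd R
  have hR' : 0 < R := by linarith
  -- the smallness
  obtain ⟨e1, he1def⟩ : ∃ e, e = 1 / (16 * R ^ 5 * (max B 0 + 1)) := ⟨_, rfl⟩
  have he1 : 0 < e1 := by rw [he1def]; positivity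
  obtain ⟨e2, he2def⟩ : ∃ e, e = ε ^ 2 / (4 * C1 * (T ^ 2 + 1)) := ⟨_, rfl⟩
  have he2 : 0 < e2 := by rw [he2def]; positivity
  have hG := hgap l g μ N M hF q0 hq0 (max T (R ^ 2)) (1 / (c * g 0)) (min e1 e2) (lt_min he1 he2)
  have hN := hF.top.eventually_ge_atTop 1
  filter_upwards [hpm, hq0, hu, hR, hB, hW.int, hW.intM, hcC, hG, hN] with
    i h1 h2 h3 h4 h5 h6 h7 h8 h9 h10
  intro qq hqq0 hqqd hqqle
  have hδ := delta_pos h1 h2
  have hOe : 0 < Oe (u i) qq := Oe_pos (hW.nonneg i) (hW.cont i) h6 hr1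
    (fun x hx => lt_of_lt_of_le hc0 (h3 x hx)) qq hqqd hqq0
  obtain ⟨a, ha⟩ : ∃ a, a = 1 / Real.sqrt (Oe (u i) qq) := ⟨_, rfl⟩
  have ha0 : 0 < a := by rw [ha]; exact one_div_pos.2 (Real.sqrt_pos.2 hOe)
  have ha2 : a ^ 2 * Oe (u i) qq = 1 := by
    rw [ha, div_pow, Real.sq_sqrt hOe.le]
    field_simp
  obtain ⟨q, hq⟩ : ∃ q : ℝ[X], q = C a * qq := ⟨_, rfl⟩
  have hqd : q.natDegree ≤ N i := by
    rw [hq]
    exact (Polynomial.natDegree_C_mul_le a qq).trans hqqd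
  have hO1 : Oe (u i) q = 1 := by rw [hq, Oe_smul, ha2]
  have hL1 : Lam g (M i) (q * q) = a ^ 2 * Lam g (M i) (qq * qq) := by
    rw [← Lam_C_mul]
    congr 1
    rw [hq, C_pow]
    ring
  have hLnn : 0 ≤ Lam g (M i) (q * q) := by
    refine Lam_nonneg h1 _ fun j => ?_
    rw [Polynomial.eval_mul]
    exact mul_self_nonneg _
  have hL2 : Lam g (M i) (q * q) * Oe (u i) (q0 i) ≤ Lam g (M i) (q0 i * q0 i) := by
    calc Lam g (M i) (q * q) * Oe (u i) (q0 i)
        = a ^ 2 * (Lam g (M i) (qq * qq) * Oe (u i) (q0 i)) := by rw [hL1]; ring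
      _ ≤ a ^ 2 * (Lam g (M i) (q0 i * q0 i) * Oe (u i) qq) :=
          mul_le_mul_of_nonneg_left hqqle (sq_nonneg a)
      _ = Lam g (M i) (q0 i * q0 i) * (a ^ 2 * Oe (u i) qq) := by ring
      _ = Lam g (M i) (q0 i * q0 i) := by rw [ha2, mul_one]
  have hL3 : Lam g (M i) (q * q) ≤ 1 / c * Lam g (M i) (q0 i * q0 i) := by
    have f1 : Lam g (M i) (q * q) * c ≤ Lam g (M i) (q0 i * q0 i) :=
      (mul_le_mul_of_nonneg_left h8.1 hLnn).trans hL2
    rw [one_div, inv_mul_eq_div, le_div_iff₀ hc]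
    exact f1
  -- the decomposition
  obtain ⟨b, hb⟩ : ∃ b, b = q.eval 0 := ⟨_, rfl⟩
  obtain ⟨h, hh⟩ : ∃ h : ℝ[X], h = (q - C b * q0 i).divX := ⟨_, rfl⟩
  have hdec : q = C b * q0 i + X * h := by
    have f1 := Polynomial.X_mul_divX_add (q - C b * q0 i)
    have f2 : (q - C b * q0 i).coeff 0 = 0 := by
      rw [Polynomial.coeff_zero_eq_eval_zero, Polynomial.eval_sub, Polynomial.eval_mul,
        Polynomial.eval_C, h2.2.1, hb]
      ring
    rw [f2, C_0, add_zero, ← hh] at f1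
    rw [f1]
    ring
  have hhd : h.natDegree + 1 ≤ N i := by
    rw [hh, Polynomial.natDegree_divX_eq_natDegree_tsub_one]
    have f1 : (q - C b * q0 i).natDegree ≤ N i :=
      (Polynomial.natDegree_sub_le _ _).trans
        (max_le hqd ((Polynomial.natDegree_C_mul_le _ _).trans h2.1))
    omega
  have horth := Lam_orth h1 h2 b h hhd
  rw [← hdec] at horth
  have hXX : 0 ≤ Lam g (M i) (X * h * (X * h)) := by
    refine Lam_nonneg h1 _ fun j => ?_
    rw [Polynomial.eval_mul]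
    exact mul_self_nonneg _
  have hXh : Lam g (M i) (X * h * h) ≤ 1 / (c * g 0) * Lam g (M i) (q0 i * q0 i) := by
    have f0 : 0 ≤ b ^ 2 * Lam g (M i) (q0 i * q0 i) := mul_nonneg (sq_nonneg b) hδ.le
    have f1 : Lam g (M i) (X * h * (X * h)) ≤ 1 / c * Lam g (M i) (q0 i * q0 i) := by linarith
    have f2 := (Lam_X_le h1 h hhd).trans f1
    have f3 : 1 / (c * g 0) * Lam g (M i) (q0 i * q0 i) =
        (1 / c * Lam g (M i) (q0 i * q0 i)) / g 0 := by
      field_simp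
    rw [f3, le_div_iff₀ hg0, mul_comm]
    exact f2
  have hgp := h9 h hhd hXh
  -- the lower bound for b
  have hint : Integrable fun x => q.eval (x ^ 2) ^ 2 * u i x :=
    int_Oe (hW.nonneg i) (hW.cont i) h6 q hqd
  have hint0 : Integrable fun x => (q0 i).eval (x ^ 2) ^ 2 * u i x :=
    int_Oe (hW.nonneg i) (hW.cont i) h6 (q0 i) h2.1
  have hb2 : 1 / (4 * C1) ≤ b ^ 2 := by
    have f1 := split_int (F := fun x => q.eval (x ^ 2) ^ 2 * u i x)
      (G := fun x => MJ g (N i) x * u i x)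
      (A := fun x => 2 * b ^ 2 * ((q0 i).eval (x ^ 2) ^ 2 * u i x)) (K := K)
      (η := 2 * R ^ 4 * e1 * max B 0) (τ := 1 / (4 * (K + 1))) hR'.le hint h7
      (hint0.const_mul _) (fun x => mul_nonneg (mul_nonneg two_pos.le (sq_nonneg b))
        (mul_nonneg (sq_nonneg _) (hW.nonneg i x))) hK (fun x => ?_) (fun x hx => ?_) h4
    · have f2 : ∫ x, q.eval (x ^ 2) ^ 2 * u i x = 1 := hO1
      have f3 : ∫ x, 2 * b ^ 2 * ((q0 i).eval (x ^ 2) ^ 2 * u i x) =
          2 * b ^ 2 * Oe (u i) (q0 i) := integral_const_mul _ _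
      rw [f2, f3] at f1
      have f4 : 2 * R * (2 * R ^ 4 * e1 * max B 0) ≤ 1 / 4 := by
        have f5 : 2 * R * (2 * R ^ 4 * e1 * max B 0) = (max B 0 / (max B 0 + 1)) * (1 / 4) := by
          rw [he1def]
          have hBp : 0 < max B 0 + 1 := by positivity
          field_simp
          ring
        have f6 : max B 0 / (max B 0 + 1) ≤ 1 := (div_le_one (by positivity)).2 (by linarith)
        rw [f5]
        linarith
      have f6 : K * (1 / (4 * (K + 1))) ≤ 1 / 4 := by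
        have f7 : K * (1 / (4 * (K + 1))) = (K / (K + 1)) * (1 / 4) := by
          field_simp
        have f8 : K / (K + 1) ≤ 1 := (div_le_one (by positivity)).2 (by linarith)
        rw [f7]
        linarith
      have f9 : 2 * b ^ 2 * Oe (u i) (q0 i) ≤ 2 * b ^ 2 * C1 :=
        mul_le_mul_of_nonneg_left h8.2 (by positivity)
      rw [div_le_iff₀ (by positivity)]
      nlinarith
    · have f2 := q_bound_MJ hKb h1 h2 hqd (K := 1 / c) (by positivity) hL3 x
      rw [← hKdef] at f2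
      rw [← mul_assoc]
      exact mul_le_mul_of_nonneg_right f2 (hW.nonneg i x)
    · have hx2 : x ^ 2 ≤ R ^ 2 := sq_le_sq' (by linarith [(abs_le.1 hx).1]) (abs_le.1 hx).2
      have f2 := hgp (x ^ 2) (sq_nonneg x) (hx2.trans (le_max_right _ _))
      have f3 : q.eval (x ^ 2) = b * (q0 i).eval (x ^ 2) + x ^ 2 * h.eval (x ^ 2) := by
        conv_lhs => rw [hdec]
        simp only [Polynomial.eval_add, Polynomial.eval_mul, Polynomial.eval_C, Polynomial.eval_X]
      have f4 : q.eval (x ^ 2) ^ 2 ≤ 2 * b ^ 2 * (q0 i).eval (x ^ 2) ^ 2 +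
          2 * ((x ^ 2) ^ 2 * h.eval (x ^ 2) ^ 2) := by
        rw [f3]
        nlinarith [sq_nonneg (b * (q0 i).eval (x ^ 2) - x ^ 2 * h.eval (x ^ 2))]
      have f5 : (x ^ 2) ^ 2 * h.eval (x ^ 2) ^ 2 ≤ R ^ 4 * e1 := by
        calc (x ^ 2) ^ 2 * h.eval (x ^ 2) ^ 2 ≤ (R ^ 2) ^ 2 * e1 :=
              mul_le_mul (pow_le_pow_left₀ (sq_nonneg x) hx2 2) (f2.trans (min_le_left _ _))
                (sq_nonneg _) (by positivity)
          _ = R ^ 4 * e1 := by ring
      have f6 : (x ^ 2) ^ 2 * h.eval (x ^ 2) ^ 2 * u i x ≤ R ^ 4 * e1 * max B 0 :=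
        mul_le_mul f5 ((h5 x hx).trans (le_max_left _ _)) (hW.nonneg i x) (by positivity)
      calc q.eval (x ^ 2) ^ 2 * u i x ≤ (2 * b ^ 2 * (q0 i).eval (x ^ 2) ^ 2 +
          2 * ((x ^ 2) ^ 2 * h.eval (x ^ 2) ^ 2)) * u i x :=
            mul_le_mul_of_nonneg_right f4 (hW.nonneg i x)
        _ = 2 * b ^ 2 * ((q0 i).eval (x ^ 2) ^ 2 * u i x) +
            2 * ((x ^ 2) ^ 2 * h.eval (x ^ 2) ^ 2 * u i x) := by ring
        _ ≤ 2 * b ^ 2 * ((q0 i).eval (x ^ 2) ^ 2 * u i x) + 2 * (R ^ 4 * e1 * max B 0) := by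
            linarith
        _ = 2 * b ^ 2 * ((q0 i).eval (x ^ 2) ^ 2 * u i x) + 2 * R ^ 4 * e1 * max B 0 := by ring
  have hbne : b ≠ 0 := by
    rintro rfl
    have : 0 < 1 / (4 * C1) := by positivity
    nlinarith
  -- the closeness
  have hcl : ∀ t : ℝ, 0 ≤ t → t ≤ T → |q.eval t - b * (q0 i).eval t| ≤ ε * |b| := by
    intro t ht0 htT
    have f1 := hgp t ht0 (htT.trans (le_max_left _ _))
    have f3 : q.eval t - b * (q0 i).eval t = t * h.eval t := by
      conv_lhs => rw [hdec]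
      simp only [Polynomial.eval_add, Polynomial.eval_mul, Polynomial.eval_C, Polynomial.eval_X]
      ring
    rw [f3]
    refine abs_le_of_sq_le_sq ?_ (by positivity)
    rw [mul_pow, mul_pow, sq_abs]
    calc t ^ 2 * h.eval t ^ 2 ≤ T ^ 2 * e2 :=
          mul_le_mul (pow_le_pow_left₀ ht0 htT 2) (f1.trans (min_le_right _ _)) (sq_nonneg _)
            (sq_nonneg _)
      _ ≤ (T ^ 2 + 1) * e2 := by nlinarith
      _ = ε ^ 2 * (1 / (4 * C1)) := by
          rw [he2def]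
          field_simp
      _ ≤ ε ^ 2 * b ^ 2 := mul_le_mul_of_nonneg_left hb2 (sq_nonneg _)
  -- back to the given polynomial
  have hbq : b = a * qq.eval 0 := by
    rw [hb, hq, Polynomial.eval_mul, Polynomial.eval_C]
  refine ⟨fun h0 => hbne (by rw [hbq, h0, mul_zero]), fun t ht0 htT => ?_⟩
  have f1 := hcl t ht0 htT
  rw [hq, Polynomial.eval_mul, Polynomial.eval_C, hbq, abs_mul a, abs_of_pos ha0,
    show a * qq.eval t - a * qq.eval 0 * (q0 i).eval t =
      a * (qq.eval t - qq.eval 0 * (q0 i).eval t) by ring, abs_mul a, abs_of_pos ha0] at f1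
  have f2 : a * |qq.eval t - qq.eval 0 * (q0 i).eval t| ≤ a * (ε * |qq.eval 0|) := by
    refine f1.trans (le_of_eq ?_)
    ring
  exact le_of_mul_le_mul_left f2 ha0

end Pool.Agent.Q61.CD
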