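import Pool.Agent.Q61.CD.Bas

/-! Jobs Oeb, Odd, Even of the project CD of helper240. -/

set_option autoImplicit false

open Polynomial Filter Topology Finset MeasureTheory

namespace Pool.Agent.Q61.CD

open Pool.Agent.Q240.CD

theorem Cg_pos {g : ℕ → ℝ} (h : 0 < g 0) : 0 < Cg g := by
  unfold Cg
  positivity

theorem GG_anti {g : ℕ → ℝ} (hm : StrictMono g) (h0 : 0 < g 0) (hs : Summable fun j => 1 / g j)
    {s t : ℝ} (hst : s ≤ t) (ht : t ≤ g 0) : GG g t ≤ GG g s := by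
  have hg : ∀ j, 0 < g j := fun j => lt_of_lt_of_le h0 (hm.monotone (Nat.zero_le j))
  have hmul : ∀ a : ℝ, Tendsto (fun n => ∏ j ∈ range n, (1 - a / g j)) atTop (𝓝 (GG g a)) := by
    intro a
    have h1 : Multipliable fun j => 1 + -(a / g j) := by
      refine multipliable_one_add_of_summable ?_
      refine ((hs.mul_left |a|)).congr fun j => ?_
      rw [norm_neg, norm_div, Real.norm_eq_abs, Real.norm_of_nonneg (hg j).le]
      ring
    have h2 := h1.hasProd.tendsto_prod_nat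
    have h3 : (∏' j, (1 + -(a / g j))) = GG g a := by
      unfold GG
      exact tprod_congr fun j => by ring
    rw [h3] at h2
    refine h2.congr fun n => Finset.prod_congr rfl fun j _ => by ring
  refine le_of_tendsto_of_tendsto' (hmul t) (hmul s) fun n => ?_
  refine Finset.prod_le_prod (fun j _ => ?_) fun j _ => ?_
  · have h1 : t / g j ≤ 1 := (div_le_one (hg j)).2 (ht.trans (hm.monotone (Nat.zero_le j)))
    linarith
  · have h1 : s / g j ≤ t / g j := div_le_div_of_nonneg_right hst (hg j).le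
    linarith

/-- the bound for polynomials by the majorant -/
theorem q_bound (hKb : S_Kb) {g M : ℕ → ℝ} {n : ℕ} (h : PM g M n) {q0 : ℝ[X]}
    (h0 : Ex g M n 0 q0) {q : ℝ[X]} (hq : q.natDegree ≤ n) {K : ℝ}
    (hL : Lam g M (q * q) ≤ K * Lam g M (q0 * q0)) (x : ℝ) :
    q.eval (x ^ 2) ^ 2 ≤ K * (Cg g * ((1 + x ^ 2) ^ 2 * mj g (n - 1) (x ^ 2) ^ 2)) := by
  have hδ := delta_pos h h0
  have h1 := hKb g M n h q0 h0 n q (x ^ 2) le_rfl hq (sq_nonneg x)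
  have hC : 0 ≤ Cg g * (1 + x ^ 2) ^ 2 * mj g (n - 1) (x ^ 2) ^ 2 :=
    mul_nonneg (mul_nonneg (Cg_pos h.pos).le (sq_nonneg _)) (sq_nonneg _)
  have h2 := h1.trans (mul_le_mul_of_nonneg_left hL hC)
  have h3 : q.eval (x ^ 2) ^ 2 * Lam g M (q0 * q0) ≤
      (K * (Cg g * ((1 + x ^ 2) ^ 2 * mj g (n - 1) (x ^ 2) ^ 2))) * Lam g M (q0 * q0) := by
    refine h2.trans (le_of_eq ?_)
    ring
  exact le_of_mul_le_mul_right h3 hδ

theorem q_bound_MJ (hKb : S_Kb) {g M : ℕ → ℝ} {n : ℕ} (h : PM g M n) {q0 : ℝ[X]}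
    (h0 : Ex g M n 0 q0) {q : ℝ[X]} (hq : q.natDegree ≤ n) {K : ℝ} (hK : 0 ≤ K)
    (hL : Lam g M (q * q) ≤ K * Lam g M (q0 * q0)) (x : ℝ) :
    q.eval (x ^ 2) ^ 2 ≤ K * Cg g * MJ g n x := by
  refine (q_bound hKb h h0 hq hL x).trans ?_
  rw [← mul_assoc]
  refine mul_le_mul_of_nonneg_left ?_ (mul_nonneg hK (Cg_pos h.pos).le)
  unfold MJ
  refine mul_le_mul_of_nonneg_left ?_ (sq_nonneg _)
  have := mul_nonneg (sq_nonneg x) (sq_nonneg (mj g (n - 2) (x ^ 2)))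
  linarith

theorem r_bound_MJ (hKb : S_Kb) {g M : ℕ → ℝ} {n : ℕ} (h : PM g M n) {q0 : ℝ[X]}
    (h0 : Ex g M n 0 q0) {q : ℝ[X]} (hq : q.natDegree + 1 ≤ n) {K : ℝ} (hK : 0 ≤ K)
    (hL : Lam g M (q * q) ≤ K * Lam g M (q0 * q0)) (x : ℝ) :
    x ^ 2 * q.eval (x ^ 2) ^ 2 ≤ K * Cg g * MJ g n x := by
  have hδ := delta_pos h h0
  have h1 := hKb g M n h q0 h0 (n - 1) q (x ^ 2) (by omega) (by omega) (sq_nonneg x)
  have hC : 0 ≤ Cg g * (1 + x ^ 2) ^ 2 * mj g (n - 1 - 1) (x ^ 2) ^ 2 :=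
    mul_nonneg (mul_nonneg (Cg_pos h.pos).le (sq_nonneg _)) (sq_nonneg _)
  have h2 := h1.trans (mul_le_mul_of_nonneg_left hL hC)
  have h3 : q.eval (x ^ 2) ^ 2 * Lam g M (q0 * q0) ≤
      (K * (Cg g * ((1 + x ^ 2) ^ 2 * mj g (n - 2) (x ^ 2) ^ 2))) * Lam g M (q0 * q0) := by
    refine h2.trans (le_of_eq ?_)
    rw [show n - 1 - 1 = n - 2 by omega]
    ring
  have h4 := le_of_mul_le_mul_right h3 hδ
  have h5 := mul_le_mul_of_nonneg_left h4 (sq_nonneg x)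
  refine h5.trans ?_
  have h6 : x ^ 2 * (K * (Cg g * ((1 + x ^ 2) ^ 2 * mj g (n - 2) (x ^ 2) ^ 2))) =
      K * Cg g * ((1 + x ^ 2) ^ 2 * (x ^ 2 * mj g (n - 2) (x ^ 2) ^ 2)) := by ring
  rw [h6]
  refine mul_le_mul_of_nonneg_left ?_ (mul_nonneg hK (Cg_pos h.pos).le)
  unfold MJ
  refine mul_le_mul_of_nonneg_left ?_ (sq_nonneg _)
  have := sq_nonneg (mj g (n - 1) (x ^ 2))
  linarith

/-- JOB Oeb. -/
theorem oeb (hKb : S_Kb) (hlow : S_Q0low) : S_Oeb := by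
  intro ι l g μ N M u hF hW q0 hq0
  rcases l.eq_or_neBot with rfl | hne
  · exact ⟨1, 1, one_pos, one_pos, by simp⟩
  obtain ⟨r, c0, hr, hrg, hc0, hu⟩ := hW.low
  have hpm := hF.pm
  obtain ⟨i0, hi0, hi0'⟩ := (hpm.and hq0).exists
  have hg : ∀ j, 0 < g j := g_pos hi0
  have hGG : 0 < GG g (r ^ 2) :=
    (hlow g (M i0) (N i0) hi0 hF.gsum (q0 i0) hi0' (r ^ 2) (sq_nonneg r) hrg).1
  obtain ⟨X, hX0, hX⟩ := tail_ge hW 1 one_pos 0
  obtain ⟨B, hB⟩ := hW.bdd X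
  obtain ⟨Bm, hBm1, hBm⟩ := mj_bdd hg hF.gsum (X ^ 2)
  have hCg := Cg_pos hi0.pos
  refine ⟨2 * r * (c0 * GG g (r ^ 2) ^ 2),
    2 * X * (Cg g * ((1 + X ^ 2) ^ 2 * Bm ^ 2) * max B 0) + Cg g * 1, by positivity,
    by positivity, ?_⟩
  filter_upwards [hpm, hq0, hu, hX, hB, hW.int, hW.intM] with i h1 h2 h3 h4 h5 h6 h7
  have hint : Integrable fun x => (q0 i).eval (x ^ 2) ^ 2 * u i x :=
    int_Oe (hW.nonneg i) (hW.cont i) h6 (q0 i) h2.1
  have hnn : ∀ x, 0 ≤ (q0 i).eval (x ^ 2) ^ 2 * u i x :=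
    fun x => mul_nonneg (sq_nonneg _) (hW.nonneg i x)
  constructor
  · have e1 : ∫ x in Set.Icc (-r) r, (c0 * GG g (r ^ 2) ^ 2) ≤
        ∫ x in Set.Icc (-r) r, (q0 i).eval (x ^ 2) ^ 2 * u i x := by
      refine setIntegral_mono_on continuous_const.integrableOn_Icc hint.integrableOn
        measurableSet_Icc fun x hx => ?_
      have hx' : |x| ≤ r := abs_le.2 hx
      have hx2 : x ^ 2 ≤ r ^ 2 := sq_le_sq' (by linarith [hx.1]) hx.2
      have e2 := (hlow g (M i) (N i) h1 hF.gsum (q0 i) h2 (x ^ 2) (sq_nonneg x)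
        (lt_of_le_of_lt hx2 hrg)).2.1
      have e3 := GG_anti h1.mono h1.pos hF.gsum hx2 hrg.le
      have e4 : GG g (r ^ 2) ^ 2 ≤ (q0 i).eval (x ^ 2) ^ 2 :=
        pow_le_pow_left₀ hGG.le (e3.trans e2) 2
      calc c0 * GG g (r ^ 2) ^ 2 ≤ u i x * (q0 i).eval (x ^ 2) ^ 2 :=
            mul_le_mul (h3 x hx') e4 (sq_nonneg _) (hW.nonneg i x)
        _ = (q0 i).eval (x ^ 2) ^ 2 * u i x := mul_comm _ _
    have e5 : ∫ x in Set.Icc (-r) r, (c0 * GG g (r ^ 2) ^ 2) = 2 * r * (c0 * GG g (r ^ 2) ^ 2) := by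
      rw [setIntegral_const, Measure.real, Real.volume_Icc, smul_eq_mul,
        ENNReal.toReal_ofReal (by linarith)]
      ring
    rw [e5] at e1
    exact e1.trans (setIntegral_le_integral hint (Eventually.of_forall hnn))
  · have hL : Lam g (M i) (q0 i * q0 i) ≤ 1 * Lam g (M i) (q0 i * q0 i) := by rw [one_mul]
    have e1 := split_int (F := fun x => (q0 i).eval (x ^ 2) ^ 2 * u i x)
      (G := fun x => MJ g (N i) x * u i x) (A := fun _ => 0) (K := Cg g)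
      (η := Cg g * ((1 + X ^ 2) ^ 2 * Bm ^ 2) * max B 0) (τ := 1) hX0 hint h7
      (integrable_zero _ _ _) (fun _ => le_rfl) hCg.le (fun x => ?_) (fun x hx => ?_) h4
    · rw [integral_zero, zero_add] at e1
      exact e1
    · have e2 := q_bound_MJ hKb h1 h2 h2.1 zero_le_one hL x
      rw [one_mul] at e2
      rw [← mul_assoc]
      exact mul_le_mul_of_nonneg_right e2 (hW.nonneg i x)
    · have e2 := q_bound hKb h1 h2 h2.1 hL x
      rw [one_mul] at e2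
      have hx2 : x ^ 2 ≤ X ^ 2 := sq_le_sq' (by linarith [(abs_le.1 hx).1]) (abs_le.1 hx).2
      rw [zero_add]
      have e3 : (q0 i).eval (x ^ 2) ^ 2 ≤ Cg g * ((1 + X ^ 2) ^ 2 * Bm ^ 2) := by
        refine e2.trans (mul_le_mul_of_nonneg_left ?_ hCg.le)
        refine mul_le_mul (pow_le_pow_left₀ (by positivity) (by linarith) 2)
          (pow_le_pow_left₀ (mj_nonneg _ _ _) (hBm _ _ hx2) 2) (sq_nonneg _) (by positivity)
      exact mul_le_mul e3 ((h5 x hx).trans (le_max_left _ _)) (hW.nonneg i x) (by positivity)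

/-- JOB Odd. -/
theorem odd (hKb : S_Kb) (hgap : S_Gap) (hoeb : S_Oeb) : S_Odd := by
  intro ι l g μ N M u hF hW q0 hq0
  rcases l.eq_or_neBot with rfl | hne
  · simp
  obtain ⟨r1, c0, hr1, hrg, hc0, hu⟩ := hW.low
  have hpm := hF.pm
  obtain ⟨i0, hi0, hi0'⟩ := (hpm.and hq0).exists
  have hg0 := hi0.pos
  have hCg := Cg_pos hi0.pos
  obtain ⟨c, C1, hc, hC, hcC⟩ := hoeb l g μ N M u hF hW q0 hq0
  obtain ⟨K, hKdef⟩ : ∃ K, K = 1 / (c * g 0) * Cg g := ⟨_, rfl⟩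
  have hK : 0 ≤ K := by rw [hKdef]; positivity
  obtain ⟨R, hX0, hX⟩ := tail_ge hW (1 / (4 * (K + 1))) (by positivity) 1
  obtain ⟨B, hB⟩ := hW.bdd R
  obtain ⟨ε, hεdef⟩ : ∃ ε, ε = 1 / (8 * R ^ 3 * (max B 0 + 1)) := ⟨_, rfl⟩
  have hX' : 0 < R := by linarith
  have hε : 0 < ε := by rw [hεdef]; positivity
  have hG := hgap l g μ N M hF q0 hq0 (R ^ 2) (1 / c) ε hε
  filter_upwards [hpm, hq0, hu, hX, hB, hW.int, hW.intM, hcC, hG] with i h1 h2 h3 h4 h5 h6 h7 h8 h9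
  intro r0 hr0 hdeg
  by_contra hcon
  rw [not_lt] at hcon
  have hδ := delta_pos h1 h2
  have hOo : 0 < Oo (u i) r0 := Oo_pos (hW.nonneg i) (hW.cont i) h6 hr1
    (fun x hx => lt_of_lt_of_le hc0 (h3 x hx)) r0 hdeg hr0
  obtain ⟨a, ha⟩ : ∃ a, a = 1 / Real.sqrt (Oo (u i) r0) := ⟨_, rfl⟩
  have ha2 : a ^ 2 * Oo (u i) r0 = 1 := by
    rw [ha, div_pow, Real.sq_sqrt hOo.le]
    field_simp
  obtain ⟨r, hr⟩ : ∃ r : ℝ[X], r = C a * r0 := ⟨_, rfl⟩
  have hrd : r.natDegree + 1 ≤ N i := by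
    rw [hr]
    have := Polynomial.natDegree_C_mul_le a r0
    omega
  have hO1 : Oo (u i) r = 1 := by rw [hr, Oo_smul, ha2]
  have hL1 : Lam g (M i) (X * r * r) = a ^ 2 * Lam g (M i) (X * r0 * r0) := by
    rw [← Lam_C_mul]
    congr 1
    rw [hr, C_pow]
    ring
  have hLnn : 0 ≤ Lam g (M i) (X * r * r) := by
    refine Lam_nonneg h1 _ fun j => ?_
    simp only [Polynomial.eval_mul, Polynomial.eval_X]
    rw [mul_assoc]
    exact mul_nonneg (g_pos h1 j).le (mul_self_nonneg _)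
  have hL2 : Lam g (M i) (X * r * r) * Oe (u i) (q0 i) ≤ Lam g (M i) (q0 i * q0 i) := by
    calc Lam g (M i) (X * r * r) * Oe (u i) (q0 i)
        = a ^ 2 * (Lam g (M i) (X * r0 * r0) * Oe (u i) (q0 i)) := by rw [hL1]; ring
      _ ≤ a ^ 2 * (Lam g (M i) (q0 i * q0 i) * Oo (u i) r0) :=
          mul_le_mul_of_nonneg_left hcon (sq_nonneg a)
      _ = Lam g (M i) (q0 i * q0 i) * (a ^ 2 * Oo (u i) r0) := by ring
      _ = Lam g (M i) (q0 i * q0 i) := by rw [ha2, mul_one]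
  have hL3 : Lam g (M i) (X * r * r) ≤ 1 / c * Lam g (M i) (q0 i * q0 i) := by
    have e1 : Lam g (M i) (X * r * r) * c ≤ Lam g (M i) (q0 i * q0 i) :=
      (mul_le_mul_of_nonneg_left h8.1 hLnn).trans hL2
    rw [one_div, inv_mul_eq_div, le_div_iff₀ hc]
    exact e1
  have hL4 : Lam g (M i) (r * r) ≤ 1 / (c * g 0) * Lam g (M i) (q0 i * q0 i) := by
    have e1 := (Lam_le_X h1 r hrd).trans hL3
    have e2 : 1 / (c * g 0) * Lam g (M i) (q0 i * q0 i) =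
        (1 / c * Lam g (M i) (q0 i * q0 i)) / g 0 := by
      field_simp
    rw [e2, le_div_iff₀ hg0, mul_comm]
    exact e1
  have hgp := h9 r hrd hL3
  have hint : Integrable fun x => x ^ 2 * r.eval (x ^ 2) ^ 2 * u i x :=
    int_Oo (hW.nonneg i) (hW.cont i) h6 r hrd
  have e1 := split_int (F := fun x => x ^ 2 * r.eval (x ^ 2) ^ 2 * u i x)
      (G := fun x => MJ g (N i) x * u i x) (A := fun _ => 0) (K := K)
      (η := R ^ 2 * ε * max B 0) (τ := 1 / (4 * (K + 1))) hX'.le hint h7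
      (integrable_zero _ _ _) (fun _ => le_rfl) hK (fun x => ?_) (fun x hx => ?_) h4
  · rw [integral_zero, zero_add] at e1
    have e2 : ∫ x, x ^ 2 * r.eval (x ^ 2) ^ 2 * u i x = 1 := hO1
    rw [e2] at e1
    have e3 : 2 * R * (R ^ 2 * ε * max B 0) ≤ 1 / 4 := by
      have e4 : 2 * R * (R ^ 2 * ε * max B 0) = (max B 0 / (max B 0 + 1)) * (1 / 4) := by
        rw [hεdef]
        have hBp : 0 < max B 0 + 1 := by positivity
        field_simp
        ring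
      have e5 : max B 0 / (max B 0 + 1) ≤ 1 := (div_le_one (by positivity)).2 (by linarith)
      rw [e4]
      linarith
    have e6 : K * (1 / (4 * (K + 1))) ≤ 1 / 4 := by
      have e7 : K * (1 / (4 * (K + 1))) = (K / (K + 1)) * (1 / 4) := by
        field_simp
      have e8 : K / (K + 1) ≤ 1 := (div_le_one (by positivity)).2 (by linarith)
      rw [e7]
      linarith
    linarith
  · have e2 := r_bound_MJ hKb h1 h2 hrd (K := 1 / (c * g 0)) (by positivity) hL4 x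
    rw [← hKdef] at e2
    rw [← mul_assoc]
    exact mul_le_mul_of_nonneg_right e2 (hW.nonneg i x)
  · have hx2 : x ^ 2 ≤ R ^ 2 := sq_le_sq' (by linarith [(abs_le.1 hx).1]) (abs_le.1 hx).2
    rw [zero_add]
    have e3 := hgp (x ^ 2) (sq_nonneg x) hx2
    have e4 : x ^ 2 * r.eval (x ^ 2) ^ 2 ≤ R ^ 2 * ε :=
      mul_le_mul hx2 e3 (sq_nonneg _) (sq_nonneg _)
    exact mul_le_mul e4 ((h5 x hx).trans (le_max_left _ _)) (hW.nonneg i x) (by positivity)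

end Pool.Agent.Q61.CD
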