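import Pool.Agent.Q240.CD.Stm

/-! Basic facts for the jobs Oeb, Odd, Even of the project CD of helper240. -/

set_option autoImplicit false

open Polynomial Filter Topology Finset MeasureTheory

namespace Pool.Agent.Q61.CD

open Pool.Agent.Q240.CD

/-! ### Point masses -/

/-- a polynomial is bounded by a power -/
theorem eval_bound (p : ℝ[X]) (n : ℕ) (h : p.natDegree ≤ n) :
    ∃ C : ℝ, 0 ≤ C ∧ ∀ x : ℝ, 0 ≤ x → |p.eval x| ≤ C * (1 + x) ^ n := by
  refine ⟨∑ k ∈ range (p.natDegree + 1), |p.coeff k|, Finset.sum_nonneg fun _ _ => abs_nonneg _,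
    fun x hx => ?_⟩
  rw [Polynomial.eval_eq_sum_range, Finset.sum_mul]
  refine (Finset.abs_sum_le_sum_abs _ _).trans (Finset.sum_le_sum fun k hk => ?_)
  rw [abs_mul, abs_pow, abs_of_nonneg hx]
  refine mul_le_mul_of_nonneg_left ?_ (abs_nonneg _)
  have hk' : k ≤ n := by
    have := Finset.mem_range.1 hk
    omega
  calc x ^ k ≤ (1 + x) ^ k := pow_le_pow_left₀ hx (by linarith) k
    _ ≤ (1 + x) ^ n := pow_le_pow_right₀ (by linarith) hk'

section

variable {g M : ℕ → ℝ} {n : ℕ}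

theorem g_pos (h : PM g M n) (j : ℕ) : 0 < g j :=
  lt_of_lt_of_le h.pos (h.mono.monotone (Nat.zero_le j))

theorem summ (h : PM g M n) (p : ℝ[X]) (hp : p.natDegree ≤ 2 * n) :
    Summable fun j => M j * p.eval (g j) := by
  obtain ⟨C, hC, hb⟩ := eval_bound p (2 * n) hp
  refine Summable.of_norm_bounded (h.sum.mul_left C) fun j => ?_
  rw [Real.norm_eq_abs, abs_mul, abs_of_nonneg (h.nonneg j)]
  calc M j * |p.eval (g j)| ≤ M j * (C * (1 + g j) ^ (2 * n)) :=
        mul_le_mul_of_nonneg_left (hb _ (g_pos h j).le) (h.nonneg j)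
    _ = C * (M j * (1 + g j) ^ (2 * n)) := by ring

theorem Lam_add (h : PM g M n) (p q : ℝ[X]) (hp : p.natDegree ≤ 2 * n)
    (hq : q.natDegree ≤ 2 * n) : Lam g M (p + q) = Lam g M p + Lam g M q := by
  unfold Lam
  rw [← (summ h p hp).tsum_add (summ h q hq)]
  refine tsum_congr fun j => ?_
  rw [Polynomial.eval_add]
  ring

theorem Lam_C_mul (a : ℝ) (p : ℝ[X]) : Lam g M (C a * p) = a * Lam g M p := by
  unfold Lam
  rw [← tsum_mul_left]
  refine tsum_congr fun j => ?_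
  rw [Polynomial.eval_mul, Polynomial.eval_C]
  ring

theorem Lam_mono (h : PM g M n) (p q : ℝ[X]) (hp : p.natDegree ≤ 2 * n)
    (hq : q.natDegree ≤ 2 * n) (hle : ∀ j, p.eval (g j) ≤ q.eval (g j)) :
    Lam g M p ≤ Lam g M q :=
  Summable.tsum_le_tsum (fun j => mul_le_mul_of_nonneg_left (hle j) (h.nonneg j)) (summ h p hp)
    (summ h q hq)

theorem Lam_nonneg (h : PM g M n) (p : ℝ[X]) (hle : ∀ j, 0 ≤ p.eval (g j)) :
    0 ≤ Lam g M p :=
  tsum_nonneg fun j => mul_nonneg (h.nonneg j) (hle j)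

theorem natDegree_mul_le2 {p q : ℝ[X]} (hp : p.natDegree ≤ n) (hq : q.natDegree ≤ n) :
    (p * q).natDegree ≤ 2 * n := by
  have := Polynomial.natDegree_mul_le (p := p) (q := q)
  omega

theorem delta_pos (h : PM g M n) {q0 : ℝ[X]} (h0 : Ex g M n 0 q0) : 0 < Lam g M (q0 * q0) := by
  refine h.dfn q0 h0.1 ?_
  rintro rfl
  have := h0.2.1
  rw [Polynomial.eval_zero] at this
  exact zero_ne_one this

/-- `Lam (r r) ≤ Lam (X r r) / g 0` -/
theorem Lam_le_X (h : PM g M n) (r : ℝ[X]) (hr : r.natDegree + 1 ≤ n) :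
    g 0 * Lam g M (r * r) ≤ Lam g M (X * r * r) := by
  rw [← Lam_C_mul]
  have e1 : (X * r * r : ℝ[X]).natDegree ≤ 2 * n := by
    have h1 := Polynomial.natDegree_mul_le (p := X * r) (q := r)
    have h2 := Polynomial.natDegree_mul_le (p := (X : ℝ[X])) (q := r)
    have h3 := Polynomial.natDegree_X_le (R := ℝ)
    omega
  have e2 : (C (g 0) * (r * r) : ℝ[X]).natDegree ≤ 2 * n := by
    have h1 := Polynomial.natDegree_C_mul_le (g 0) (r * r)
    have h2 := Polynomial.natDegree_mul_le (p := r) (q := r)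
    omega
  refine Lam_mono h _ _ e2 e1 fun j => ?_
  simp only [Polynomial.eval_mul, Polynomial.eval_C, Polynomial.eval_X]
  have h1 : g 0 ≤ g j := h.mono.monotone (Nat.zero_le j)
  nlinarith [mul_self_nonneg (r.eval (g j)), mul_le_mul_of_nonneg_right h1
    (mul_self_nonneg (r.eval (g j)))]

/-- `Lam (X h h) ≤ Lam (X h X h) / g 0` -/
theorem Lam_X_le (h : PM g M n) (r : ℝ[X]) (hr : r.natDegree + 1 ≤ n) :
    g 0 * Lam g M (X * r * r) ≤ Lam g M (X * r * (X * r)) := by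
  rw [← Lam_C_mul]
  have h2 := Polynomial.natDegree_mul_le (p := (X : ℝ[X])) (q := r)
  have h3 := Polynomial.natDegree_X_le (R := ℝ)
  have e1 : (X * r * (X * r) : ℝ[X]).natDegree ≤ 2 * n := by
    have h1 := Polynomial.natDegree_mul_le (p := X * r) (q := X * r)
    omega
  have e2 : (C (g 0) * (X * r * r) : ℝ[X]).natDegree ≤ 2 * n := by
    have h1 := Polynomial.natDegree_C_mul_le (g 0) (X * r * r)
    have h4 := Polynomial.natDegree_mul_le (p := X * r) (q := r)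
    omega
  refine Lam_mono h _ _ e2 e1 fun j => ?_
  simp only [Polynomial.eval_mul, Polynomial.eval_C, Polynomial.eval_X]
  have h1 : g 0 ≤ g j := h.mono.monotone (Nat.zero_le j)
  have h5 : 0 ≤ g j * (r.eval (g j) * r.eval (g j)) :=
    mul_nonneg (g_pos h j).le (mul_self_nonneg _)
  nlinarith [mul_le_mul_of_nonneg_right h1 h5]

/-- orthogonality -/
theorem Lam_orth (h : PM g M n) {q0 : ℝ[X]} (h0 : Ex g M n 0 q0) (a : ℝ) (r : ℝ[X])
    (hr : r.natDegree + 1 ≤ n) :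
    Lam g M ((C a * q0 + X * r) * (C a * q0 + X * r)) =
      a ^ 2 * Lam g M (q0 * q0) + Lam g M (X * r * (X * r)) := by
  have h2 := Polynomial.natDegree_mul_le (p := (X : ℝ[X])) (q := r)
  have h3 := Polynomial.natDegree_X_le (R := ℝ)
  have hXr : (X * r : ℝ[X]).natDegree ≤ n := by omega
  have h4 : Lam g M (q0 * (X * r)) = 0 := h0.2.2 (X * r) hXr (by simp)
  have e : (C a * q0 + X * r) * (C a * q0 + X * r) =
      C (a ^ 2) * (q0 * q0) + (C (2 * a) * (q0 * (X * r)) + X * r * (X * r)) := by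
    rw [show (C (a ^ 2) : ℝ[X]) = C a * C a by rw [← C_mul, sq],
      show (C (2 * a) : ℝ[X]) = 2 * C a by rw [C_mul]; rfl]
    ring
  have d1 : (C (a ^ 2) * (q0 * q0) : ℝ[X]).natDegree ≤ 2 * n :=
    (Polynomial.natDegree_C_mul_le _ _).trans (natDegree_mul_le2 h0.1 h0.1)
  have d2 : (C (2 * a) * (q0 * (X * r)) : ℝ[X]).natDegree ≤ 2 * n :=
    (Polynomial.natDegree_C_mul_le _ _).trans (natDegree_mul_le2 h0.1 hXr)
  have d3 : (X * r * (X * r) : ℝ[X]).natDegree ≤ 2 * n := natDegree_mul_le2 hXr hXr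
  have d4 : (C (2 * a) * (q0 * (X * r)) + X * r * (X * r) : ℝ[X]).natDegree ≤ 2 * n :=
    (Polynomial.natDegree_add_le _ _).trans (max_le d2 d3)
  rw [e, Lam_add h _ _ d1 d4, Lam_add h _ _ d2 d3, Lam_C_mul, Lam_C_mul, h4]
  ring

theorem mj_nonneg (g : ℕ → ℝ) (n : ℕ) (t : ℝ) : 0 ≤ mj g n t :=
  Finset.prod_nonneg fun _ _ => le_trans zero_le_one (le_max_left _ _)

theorem one_le_mj (g : ℕ → ℝ) (n : ℕ) (t : ℝ) : 1 ≤ mj g n t := by
  calc (1 : ℝ) = ∏ _j ∈ range n, (1 : ℝ) := by simp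
    _ ≤ mj g n t := Finset.prod_le_prod (fun _ _ => zero_le_one) fun _ _ => le_max_left _ _

theorem mj_succ (g : ℕ → ℝ) (n : ℕ) (t : ℝ) : mj g (n + 1) t = mj g n t * max 1 (t / g n) :=
  Finset.prod_range_succ _ _

theorem mj_mono (g : ℕ → ℝ) (t : ℝ) : Monotone fun n => mj g n t := by
  refine monotone_nat_of_le_succ fun n => ?_
  rw [mj_succ]
  exact le_mul_of_one_le_right (mj_nonneg _ _ _) (le_max_left _ _)

theorem mj_mono_t (h : ∀ j, 0 < g j) (n : ℕ) {s t : ℝ} (hst : s ≤ t) : mj g n s ≤ mj g n t := by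
  refine Finset.prod_le_prod (fun _ _ => le_trans zero_le_one (le_max_left _ _)) fun j _ => ?_
  exact max_le_max le_rfl (div_le_div_of_nonneg_right hst (h j).le)

theorem g_large (hg : ∀ j, 0 < g j) (hs : Summable fun j => 1 / g j) (T : ℝ) :
    ∃ J, ∀ j, J ≤ j → T ≤ g j := by
  have h1 := hs.tendsto_atTop_zero
  have h2 : ∀ᶠ j in atTop, 1 / g j < 1 / (|T| + 1) :=
    h1.eventually (gt_mem_nhds (by positivity))
  obtain ⟨J, hJ⟩ := eventually_atTop.1 h2
  refine ⟨J, fun j hj => ?_⟩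
  have h3 := (one_div_lt_one_div (hg j) (by positivity)).1 (hJ j hj)
  have h4 := le_abs_self T
  linarith

/-- the majorants are bounded on compact sets, uniformly in the degree -/
theorem mj_bdd (hg : ∀ j, 0 < g j) (hs : Summable fun j => 1 / g j) (T : ℝ) :
    ∃ B : ℝ, 1 ≤ B ∧ ∀ (n : ℕ) (t : ℝ), t ≤ T → mj g n t ≤ B := by
  obtain ⟨J, hJ⟩ := g_large hg hs T
  refine ⟨mj g J T, one_le_mj _ _ _, fun n t ht => (mj_mono_t hg n ht).trans ?_⟩
  induction n with
  | zero => exact le_trans (le_of_eq (by simp [mj])) (one_le_mj g J T)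
  | succ n ih =>
    by_cases h : n < J
    · exact mj_mono g T h
    · rw [mj_succ, max_eq_left ((div_le_one (hg n)).2 (hJ n (not_lt.1 h))), mul_one]
      exact ih

theorem MJ_nonneg (g : ℕ → ℝ) (n : ℕ) (x : ℝ) : 0 ≤ MJ g n x := by
  unfold MJ
  positivity

end

/-! ### Splitting of integrals -/

theorem abs_le_set (X : ℝ) : {x : ℝ | X < |x|}ᶜ = Set.Icc (-X) X := by
  ext x
  simp only [Set.mem_compl_iff, Set.mem_ofPred_eq, not_lt, Set.mem_Icc]
  exact abs_le

theorem meas_set (X : ℝ) : MeasurableSet {x : ℝ | X < |x|} :=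
  measurableSet_lt measurable_const measurable_id.abs

theorem split_int {F G A : ℝ → ℝ} {K X η τ : ℝ} (hX : 0 ≤ X) (hF : Integrable F)
    (hG : Integrable G) (hA : Integrable A) (hA0 : ∀ x, 0 ≤ A x) (hK : 0 ≤ K)
    (h1 : ∀ x, F x ≤ K * G x) (h2 : ∀ x, |x| ≤ X → F x ≤ A x + η)
    (h3 : ∫ x in {x : ℝ | X < |x|}, G x ≤ τ) :
    ∫ x, F x ≤ (∫ x, A x) + 2 * X * η + K * τ := by
  have e1 := integral_add_compl (meas_set X) hF
  rw [← e1]
  have e2 : ∫ x in {x : ℝ | X < |x|}, F x ≤ K * τ := by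
    calc ∫ x in {x : ℝ | X < |x|}, F x ≤ ∫ x in {x : ℝ | X < |x|}, K * G x :=
          integral_mono hF.integrableOn (hG.const_mul K).integrableOn h1
      _ = K * ∫ x in {x : ℝ | X < |x|}, G x := integral_const_mul _ _
      _ ≤ K * τ := mul_le_mul_of_nonneg_left h3 hK
  have e3 : ∫ x in {x : ℝ | X < |x|}ᶜ, F x ≤ (∫ x, A x) + 2 * X * η := by
    rw [abs_le_set]
    have hc : IntegrableOn (fun _ : ℝ => η) (Set.Icc (-X) X) :=
      integrableOn_const (by simp) (by simp)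
    calc ∫ x in Set.Icc (-X) X, F x ≤ ∫ x in Set.Icc (-X) X, (A x + η) := by
          refine setIntegral_mono_on hF.integrableOn (hA.integrableOn.add hc) measurableSet_Icc ?_
          intro x hx
          exact h2 x (abs_le.2 hx)
      _ = (∫ x in Set.Icc (-X) X, A x) + ∫ x in Set.Icc (-X) X, η :=
          integral_add hA.integrableOn hc
      _ ≤ (∫ x, A x) + 2 * X * η := by
          refine add_le_add ?_ (le_of_eq ?_)
          · exact setIntegral_le_integral hA (Eventually.of_forall hA0)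
          · rw [setIntegral_const, Measure.real, Real.volume_Icc, smul_eq_mul,
              ENNReal.toReal_ofReal (by linarith)]
            ring
  linarith

/-! ### Weights -/

section

variable {ι : Type} {l : Filter ι} {g : ℕ → ℝ} {N : ι → ℕ} {u : ι → ℝ → ℝ}

theorem tail_ge (h : Wts l g N u) (ε : ℝ) (hε : 0 < ε) (X0 : ℝ) :
    ∃ X : ℝ, X0 ≤ X ∧ ∀ᶠ i in l, ∫ x in {x : ℝ | X < |x|}, MJ g (N i) x * u i x ≤ ε := by
  obtain ⟨X, hX⟩ := h.tail ε hε
  refine ⟨max X X0, le_max_right _ _, ?_⟩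
  filter_upwards [hX, h.intM] with i hi hint
  refine le_trans ?_ hi
  refine setIntegral_mono_set hint.integrableOn ?_ ?_
  · exact Eventually.of_forall fun x => mul_nonneg (MJ_nonneg _ _ _) (h.nonneg i x)
  · refine Eventually.of_forall fun x hx => ?_
    exact lt_of_le_of_lt (le_max_left _ _) hx

theorem int_poly {N0 : ℕ} {v : ℝ → ℝ} (h0 : ∀ x, 0 ≤ v x) (hc : Continuous v)
    (hi : Integrable fun x => (1 + x ^ 2) ^ (2 * N0) * v x) (p : ℝ[X])
    (hp : p.natDegree ≤ 2 * N0) : Integrable fun x => p.eval (x ^ 2) * v x := by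
  obtain ⟨C, hC, hb⟩ := eval_bound p (2 * N0) hp
  refine Integrable.mono' (hi.const_mul C) ?_ ?_
  · refine Continuous.aestronglyMeasurable ?_
    exact ((p.continuous).comp (continuous_pow 2)).mul hc
  · refine Eventually.of_forall fun x => ?_
    rw [Real.norm_eq_abs, abs_mul, abs_of_nonneg (h0 x)]
    calc |p.eval (x ^ 2)| * v x ≤ (C * (1 + x ^ 2) ^ (2 * N0)) * v x :=
          mul_le_mul_of_nonneg_right (hb _ (sq_nonneg x)) (h0 x)
      _ = C * ((1 + x ^ 2) ^ (2 * N0) * v x) := by ring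

theorem int_Oe {N0 : ℕ} {v : ℝ → ℝ} (h0 : ∀ x, 0 ≤ v x) (hc : Continuous v)
    (hi : Integrable fun x => (1 + x ^ 2) ^ (2 * N0) * v x) (q : ℝ[X]) (hq : q.natDegree ≤ N0) :
    Integrable fun x => q.eval (x ^ 2) ^ 2 * v x := by
  have h := int_poly h0 hc hi (q * q) (natDegree_mul_le2 hq hq)
  refine h.congr (Eventually.of_forall fun x => ?_)
  simp only [Polynomial.eval_mul]
  ring

theorem int_Oo {N0 : ℕ} {v : ℝ → ℝ} (h0 : ∀ x, 0 ≤ v x) (hc : Continuous v)
    (hi : Integrable fun x => (1 + x ^ 2) ^ (2 * N0) * v x) (r : ℝ[X])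
    (hr : r.natDegree + 1 ≤ N0) : Integrable fun x => x ^ 2 * r.eval (x ^ 2) ^ 2 * v x := by
  have h1 := Polynomial.natDegree_mul_le (p := X * r) (q := r)
  have h2 := Polynomial.natDegree_mul_le (p := (X : ℝ[X])) (q := r)
  have h3 := Polynomial.natDegree_X_le (R := ℝ)
  have h := int_poly h0 hc hi (X * r * r) (by omega)
  refine h.congr (Eventually.of_forall fun x => ?_)
  simp only [Polynomial.eval_mul, Polynomial.eval_X]
  ring

/-- a polynomial in `x²` which vanishes near zero vanishes -/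
theorem poly_zero (q : ℝ[X]) (r : ℝ) (hr : 0 < r) (h : ∀ x : ℝ, |x| < r → x ≠ 0 → q.eval (x ^ 2) = 0) :
    q = 0 := by
  refine Polynomial.eq_zero_of_infinite_isRoot q ?_
  have h1 : (Set.Ioo (0 : ℝ) (r ^ 2)).Infinite := Set.Ioo_infinite (by positivity)
  refine h1.mono fun t ht => ?_
  have h2 : Real.sqrt t ^ 2 = t := Real.sq_sqrt ht.1.le
  have h3 := h (Real.sqrt t) ?_ (Real.sqrt_pos.2 ht.1).ne'
  · rw [h2] at h3
    exact h3
  · rw [abs_of_nonneg (Real.sqrt_nonneg t)]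
    exact (Real.sqrt_lt' hr).2 ht.2

theorem pos_int {F : ℝ → ℝ} (hc : Continuous F) (h0 : ∀ x, 0 ≤ F x) (hi : Integrable F)
    (hne : ∃ x, F x ≠ 0) : 0 < ∫ x, F x := by
  refine (integral_nonneg h0).lt_of_ne fun h => ?_
  have h1 := (integral_eq_zero_iff_of_nonneg h0 hi).1 h.symm
  have h2 : F = fun _ => 0 := Continuous.ae_eq_iff_eq (μ := volume) hc continuous_const |>.1 h1
  obtain ⟨x, hx⟩ := hne
  exact hx (congrFun h2 x)

theorem Oe_pos {N0 : ℕ} {v : ℝ → ℝ} (h0 : ∀ x, 0 ≤ v x) (hc : Continuous v)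
    (hi : Integrable fun x => (1 + x ^ 2) ^ (2 * N0) * v x) {r : ℝ} (hr : 0 < r)
    (hl : ∀ x, |x| ≤ r → 0 < v x) (q : ℝ[X]) (hq : q.natDegree ≤ N0) (hq0 : q ≠ 0) :
    0 < Oe v q := by
  refine pos_int ?_ ?_ (int_Oe h0 hc hi q hq) ?_
  · exact (((q.continuous).comp (continuous_pow 2)).pow 2).mul hc
  · exact fun x => mul_nonneg (sq_nonneg _) (h0 x)
  · by_contra hcon
    push Not at hcon
    apply hq0
    refine poly_zero q r hr fun x hx _ => ?_
    have h1 := hcon x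
    rcases mul_eq_zero.1 h1 with h | h
    · exact pow_eq_zero_iff (two_ne_zero) |>.1 h
    · exact absurd h (hl x hx.le).ne'

theorem Oo_pos {N0 : ℕ} {v : ℝ → ℝ} (h0 : ∀ x, 0 ≤ v x) (hc : Continuous v)
    (hi : Integrable fun x => (1 + x ^ 2) ^ (2 * N0) * v x) {r : ℝ} (hr : 0 < r)
    (hl : ∀ x, |x| ≤ r → 0 < v x) (q : ℝ[X]) (hq : q.natDegree + 1 ≤ N0) (hq0 : q ≠ 0) :
    0 < Oo v q := by
  refine pos_int ?_ ?_ (int_Oo h0 hc hi q hq) ?_
  · exact ((continuous_pow 2).mul (((q.continuous).comp (continuous_pow 2)).pow 2)).mul hc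
  · exact fun x => mul_nonneg (mul_nonneg (sq_nonneg _) (sq_nonneg _)) (h0 x)
  · by_contra hcon
    push Not at hcon
    apply hq0
    refine poly_zero q r hr fun x hx hx0 => ?_
    have h1 := hcon x
    rcases mul_eq_zero.1 h1 with h | h
    · rcases mul_eq_zero.1 h with h' | h'
      · exact absurd (pow_eq_zero_iff (two_ne_zero) |>.1 h') hx0
      · exact pow_eq_zero_iff (two_ne_zero) |>.1 h'
    · exact absurd h (hl x hx.le).ne'

theorem Oe_smul (v : ℝ → ℝ) (a : ℝ) (q : ℝ[X]) : Oe v (C a * q) = a ^ 2 * Oe v q := by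
  unfold Oe
  rw [← integral_const_mul]
  refine integral_congr_ae (Eventually.of_forall fun x => ?_)
  simp only [Polynomial.eval_mul, Polynomial.eval_C]
  ring

theorem Oo_smul (v : ℝ → ℝ) (a : ℝ) (q : ℝ[X]) : Oo v (C a * q) = a ^ 2 * Oo v q := by
  unfold Oo
  rw [← integral_const_mul]
  refine integral_congr_ae (Eventually.of_forall fun x => ?_)
  simp only [Polynomial.eval_mul, Polynomial.eval_C]
  ring

end

end Pool.Agent.Q61.CD
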